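import Mathlib
import Pool.Agent.H28.Trunc

set_option autoImplicit false

namespace Pool.Agent.Results.MP_d99112_an.Four

open Real

/-- the kernel, the summation index `n + 1` running over the positive integers -/
noncomputable def Φ (t : ℝ) : ℝ := 2 * ∑' n : ℕ, (2 * π ^ 2 * ((n : ℝ) + 1) ^ 4 * exp (9 * t / 2) -
  3 * π * ((n : ℝ) + 1) ^ 2 * exp (5 * t / 2)) * exp (-π * ((n : ℝ) + 1) ^ 2 * exp (2 * t))

/-- the truncated cosine transform -/
noncomputable def F (R : ℝ) (z : ℂ) : ℂ := ∫ x in (0 : ℝ)..R, (Φ x : ℂ) * Complex.cos (z * x)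

open Pool.Agent.H28 in
theorem result : ∃ R₀ : ℝ, 0 < R₀ ∧ ∀ R, R₀ ≤ R → ∃ S : Finset ℂ, S.card = 4 ∧
    ∀ z ∈ S, F R z = 0 ∧ z.im ≠ 0 := by
  obtain ⟨a₀, ha⟩ := Filter.eventually_atTop.1 ((Trunc.main 0).and (Filter.eventually_gt_atTop 0))
  refine ⟨2 * a₀, by linarith [(ha a₀ le_rfl).2], fun R hR => ?_⟩
  obtain ⟨⟨z, h1, h2⟩, h3⟩ := ha (R / 2) (by linarith)
  have e : ∀ t, Φ t = 2 * Trunc.Φ (t / 2) := fun t => by
    rw [Φ, Trunc.Φ]; congr 1; exact tsum_congr fun n => by ring_nf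
  have hF : ∀ w : ℂ, F R (w / 2) =
      4 * ∫ t in (0 : ℝ)..R / 2, (Trunc.Φ t : ℂ) * Complex.cos (w * t) := fun w => by
    have := intervalIntegral.integral_comp_div (a := 0) (b := R)
      (fun t : ℝ => (Trunc.Φ t : ℂ) * Complex.cos (w * t)) two_ne_zero
    rw [zero_div, Complex.real_smul] at this
    rw [F, show (4 : ℂ) = 2 * (2 : ℝ) by norm_num, mul_assoc, ← this,
      ← intervalIntegral.integral_const_mul]
    refine intervalIntegral.integral_congr fun t _ => ?_
    simp only [e]; push_cast; ring_nf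
  have re : z.re ≠ 0 := fun h => by
    have hz : z = z.im * Complex.I := by simp [Complex.ext_iff, h]
    have : 0 < ∫ t in (0 : ℝ)..R / 2, Trunc.Φ |t| * cosh (z.im * t) :=
      intervalIntegral.intervalIntegral_pos_of_pos
        ((Trunc.Φ_cont.mul (by fun_prop)).intervalIntegrable _ _)
        (fun t => mul_pos (Trunc.Φ_pos _ (abs_nonneg t)) (cosh_pos _)) h3
    refine this.ne' (Complex.ofReal_eq_zero.1 ?_)
    rw [← intervalIntegral.integral_ofReal, ← h2]
    refine intervalIntegral.integral_congr fun t ht => ?_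
    rw [Set.uIcc_of_le h3.le] at ht
    simp only [abs_of_nonneg ht.1]
    rw [hz, mul_right_comm, Complex.cos_mul_I]; simp
  have h4 : ∫ t in (0 : ℝ)..R / 2, (Trunc.Φ t : ℂ) * Complex.cos ((starRingEnd ℂ) z * t) = 0 := by
    have := congrArg (starRingEnd ℂ) h2
    rw [intervalIntegral.integral_of_le h3.le, ← integral_conj, map_zero] at this
    rw [intervalIntegral.integral_of_le h3.le, ← this]
    simp [← Complex.cos_conj]
  refine ⟨{z / 2, -z / 2, (starRingEnd ℂ) z / 2, -(starRingEnd ℂ) z / 2}, ?_, ?_⟩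
  · rw [Finset.card_eq_four]
    refine ⟨_, _, _, _, ?_, ?_, ?_, ?_, ?_, ?_, rfl⟩ <;> intro h <;>
      simp [Complex.ext_iff] at h <;> first | exact re (by linarith) | exact h1.ne' (by linarith)
  · simp only [Finset.mem_insert, Finset.mem_singleton]
    rintro w (rfl | rfl | rfl | rfl) <;> rw [hF] <;> simp [h2, h4, h1.ne']

end Pool.Agent.Results.MP_d99112_an.Four
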